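import Mathlib

/-!
# A closed relation on a totally disconnected space with `Δ ⊆ G²` and without (1,2)-shadowing
-/

open Filter Topology Set

namespace Pool.Agent.Results.MP_cda11a_an.NoShadowing12

/-- `(x,y) ∈ G^n`. -/
def IterRel {X : Type*} (G : Set (X × X)) : ℕ → Set (X × X)
  | 0 => {p | p.1 = p.2}
  | n + 1 => {p | ∃ z, (p.1, z) ∈ G ∧ (z, p.2) ∈ IterRel G n}

/-- `y` is a trajectory. -/
def IsTrajectory {X : Type*} (G : Set (X × X)) (y : ℕ → X) : Prop := ∀ m, (y m, y (m + 1)) ∈ G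

/-- `x` is a `(V,1)`-pseudo-orbit. -/
def PseudoOrbit1 {X : Type*} (G V : Set (X × X)) (x : ℕ → X) : Prop :=
  ∀ m, ∀ y, (x m, y) ∈ G → (y, x (m + 1)) ∈ V

/-- The point `z` `(U,2)`-shadows the sequence `x`. -/
def Shadows2 {X : Type*} (G U : Set (X × X)) (z : X) (x : ℕ → X) : Prop :=
  ∃ y : ℕ → X, y 0 = z ∧ IsTrajectory G y ∧ ∀ m, (y m, x m) ∈ U

/-- The `(1,2)`-shadowing property; entourages are the neighbourhoods of the diagonal. -/
def Shadowing12 {X : Type*} [TopologicalSpace X] (G : Set (X × X)) : Prop :=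
  ∀ U ∈ 𝓝ˢ (Set.diagonal X), ∃ V ∈ 𝓝ˢ (Set.diagonal X), ∀ x : ℕ → X,
    PseudoOrbit1 G V x → ∃ z, Shadows2 G U z x

/-- The underlying set of the example. -/
def Xset : Set (ℕ∞ × ℕ∞ × ℕ∞) := {p | p.2.2 = ⊤ ∨ p.2.2 = p.1 + p.2.1}

/-- The space of the example. -/
abbrev Ex : Type := Xset

/-- First coordinate. -/
def jj (p : Ex) : ℕ∞ := p.1.1

/-- Second coordinate. -/
def kk (p : Ex) : ℕ∞ := p.1.2.1

/-- Third coordinate. -/
def ww (p : Ex) : ℕ∞ := p.1.2.2

lemma continuous_jj : Continuous jj := continuous_fst.comp continuous_subtype_val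

lemma continuous_kk : Continuous kk :=
  (continuous_fst.comp continuous_snd).comp continuous_subtype_val

lemma continuous_ww : Continuous ww :=
  (continuous_snd.comp continuous_snd).comp continuous_subtype_val

lemma ww_or (p : Ex) : ww p = ⊤ ∨ ww p = jj p + kk p := p.2

lemma ext' {p q : Ex} (h1 : jj p = jj q) (h2 : kk p = kk q) (h3 : ww p = ww q) : p = q :=
  Subtype.ext (Prod.ext h1 (Prod.ext h2 h3))

/-- The points with infinite third coordinate. -/
def pA (j k : ℕ∞) : Ex := ⟨(j, k, ⊤), Or.inl rfl⟩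

/-- The points with third coordinate the sum. -/
def pB (j k : ℕ∞) : Ex := ⟨(j, k, j + k), Or.inr rfl⟩

lemma isClosed_Xset : IsClosed Xset := by
  apply IsClosed.union
  · exact isClosed_eq (by fun_prop) continuous_const
  · exact isClosed_eq (by fun_prop) (by fun_prop)

instance : CompactSpace Ex := isCompact_iff_compactSpace.1 isClosed_Xset.isCompact

instance : Countable Ex := inferInstance

/-- The basic relation. -/
def R : Set (Ex × Ex) := {p | ww p.1 = ⊤ ∧ jj p.2 = jj p.1 + 1 ∧ kk p.1 = kk p.2 + 1 ∧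
  ww p.2 = jj p.2 + kk p.2}

/-- The relation `G`. -/
def G : Set (Ex × Ex) := R ∪ Prod.swap ⁻¹' R ∪ {p | p.1 = p.2 ∧ kk p.1 = 0 ∧ ww p.1 = ⊤} ∪
  {p | p.1 = p.2 ∧ jj p.1 = 0 ∧ ww p.1 = jj p.1 + kk p.1}

lemma isClosed_R : IsClosed R := by
  have h1 := continuous_jj
  have h2 := continuous_kk
  have h3 := continuous_ww
  refine IsClosed.and (isClosed_eq (by fun_prop) continuous_const) (IsClosed.and
    (isClosed_eq (by fun_prop) (by fun_prop)) (IsClosed.and
    (isClosed_eq (by fun_prop) (by fun_prop)) (isClosed_eq (by fun_prop) (by fun_prop))))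

lemma isClosed_G : IsClosed G := by
  have h1 := continuous_jj
  have h2 := continuous_kk
  have h3 := continuous_ww
  refine IsClosed.union (IsClosed.union (IsClosed.union isClosed_R
    (isClosed_R.preimage continuous_swap)) ?_) ?_
  · exact IsClosed.and (isClosed_eq (by fun_prop) (by fun_prop)) (IsClosed.and
      (isClosed_eq (by fun_prop) continuous_const) (isClosed_eq (by fun_prop) continuous_const))
  · exact IsClosed.and (isClosed_eq (by fun_prop) (by fun_prop)) (IsClosed.and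
      (isClosed_eq (by fun_prop) continuous_const) (isClosed_eq (by fun_prop) (by fun_prop)))

lemma add_one_inj' {a b : ℕ∞} (h : a + 1 = b + 1) : a = b :=
  ENat.add_left_injective_of_ne_top ENat.one_ne_top h

lemma exists_pred {a : ℕ∞} (ha : a ≠ 0) : ∃ b, a = b + 1 := by
  refine ⟨a - 1, ?_⟩
  rw [tsub_add_cancel_of_le (Order.one_le_iff_ne_zero.2 ha)]

lemma diag_sub (x : Ex) : ∃ z, (x, z) ∈ G ∧ (z, x) ∈ G := by
  rcases ww_or x with h | h
  · by_cases hk : kk x = 0
    · exact ⟨x, Or.inl (Or.inr ⟨rfl, hk, h⟩), Or.inl (Or.inr ⟨rfl, hk, h⟩)⟩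
    · obtain ⟨k, hk'⟩ := exists_pred hk
      have hR : (x, pB (jj x + 1) k) ∈ R := ⟨h, rfl, hk', rfl⟩
      exact ⟨pB (jj x + 1) k, Or.inl (Or.inl (Or.inl hR)), Or.inl (Or.inl (Or.inr hR))⟩
  · by_cases hj : jj x = 0
    · exact ⟨x, Or.inr ⟨rfl, hj, h⟩, Or.inr ⟨rfl, hj, h⟩⟩
    · obtain ⟨j, hj'⟩ := exists_pred hj
      have hR : (pA j (kk x + 1), x) ∈ R := ⟨rfl, hj', rfl, h⟩
      exact ⟨pA j (kk x + 1), Or.inl (Or.inl (Or.inr hR)), Or.inl (Or.inl (Or.inl hR))⟩

/-- The entourage used to refute shadowing. -/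
def U : Set (Ex × Ex) := {p | (jj p.1 = 0 ↔ jj p.2 = 0) ∧ (kk p.1 = 0 ↔ kk p.2 = 0)}

lemma isOpen_U : IsOpen U := by
  have key : ∀ f : Ex → ℕ∞, Continuous f → IsOpen {p : Ex × Ex | (f p.1 = 0 ↔ f p.2 = 0)} := by
    intro f hf
    have ho : IsOpen {x : Ex | f x = 0} :=
      (ENat.isOpen_singleton (x := 0) (by simp)).preimage hf
    have hc : IsClosed {x : Ex | f x = 0} := isClosed_singleton.preimage hf
    have e : {p : Ex × Ex | (f p.1 = 0 ↔ f p.2 = 0)} =
        (Prod.fst ⁻¹' {x | f x = 0} ∩ Prod.snd ⁻¹' {x | f x = 0}) ∪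
        (Prod.fst ⁻¹' {x | f x = 0}ᶜ ∩ Prod.snd ⁻¹' {x | f x = 0}ᶜ) := by
      ext p
      simp only [Set.mem_union, Set.mem_inter_iff, Set.mem_preimage, Set.mem_compl_iff]
      show (f p.1 = 0 ↔ f p.2 = 0) ↔ (f p.1 = 0 ∧ f p.2 = 0) ∨ (¬ f p.1 = 0 ∧ ¬ f p.2 = 0)
      tauto
    rw [e]
    exact ((ho.preimage continuous_fst).inter (ho.preimage continuous_snd)).union
      ((hc.isOpen_compl.preimage continuous_fst).inter (hc.isOpen_compl.preimage continuous_snd))
  exact (key jj continuous_jj).inter (key kk continuous_kk)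

lemma U_mem : U ∈ 𝓝ˢ (Set.diagonal Ex) := by
  apply isOpen_U.mem_nhdsSet.2
  rintro ⟨x, y⟩ hxy
  rw [Set.mem_diagonal_iff] at hxy
  simp only at hxy
  subst hxy
  exact ⟨Iff.rfl, Iff.rfl⟩

/-- For every entourage the pairs `(j,k,N), (j,k,∞)` with `j + k = N` eventually belong to it. -/
lemma exists_N {V : Set (Ex × Ex)} (hV : V ∈ 𝓝ˢ (Set.diagonal Ex)) :
    ∃ N : ℕ, 1 ≤ N ∧ ∀ a b : ℕ∞, a + b = N → (pB a b, pA a b) ∈ V := by
  obtain ⟨W, hWo, hWd, hWV⟩ := mem_nhdsSet_iff_exists.1 hV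
  let ψ : ℕ∞ × ℕ∞ → Ex × Ex := fun p => (pB p.1 p.2, pA p.1 p.2)
  have hψ : Continuous ψ := by
    apply Continuous.prodMk
    · apply Continuous.subtype_mk
      fun_prop
    · apply Continuous.subtype_mk
      fun_prop
  have hC : IsClosed (ψ ⁻¹' Wᶜ) := hWo.isClosed_compl.preimage hψ
  have hC' : IsCompact ((fun p : ℕ∞ × ℕ∞ => p.1 + p.2) '' (ψ ⁻¹' Wᶜ)) :=
    hC.isCompact.image (by fun_prop)
  have htop : (⊤ : ℕ∞) ∉ (fun p : ℕ∞ × ℕ∞ => p.1 + p.2) '' (ψ ⁻¹' Wᶜ) := by
    rintro ⟨⟨a, b⟩, hab, hsum⟩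
    simp only at hsum
    apply hab
    apply hWd
    rw [Set.mem_diagonal_iff]
    refine ext' (p := pB a b) (q := pA a b) rfl rfl ?_
    show a + b = ⊤
    exact hsum
  have hev : ∀ᶠ n : ℕ in atTop, ((n : ℕ∞)) ∉ (fun p : ℕ∞ × ℕ∞ => p.1 + p.2) '' (ψ ⁻¹' Wᶜ) :=
    ENat.tendsto_natCast_nhds_top.eventually (hC'.isClosed.isOpen_compl.mem_nhds htop)
  obtain ⟨N, hN, hN1⟩ := (hev.and (eventually_ge_atTop 1)).exists
  refine ⟨N, hN1, fun a b hab => ?_⟩
  apply hWV
  by_contra hcon
  exact hN ⟨(a, b), hcon, hab⟩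

/-- The pseudo-orbit. -/
def orb (N : ℕ) (m : ℕ) : Ex := pA ((min m N : ℕ) : ℕ∞) ((N - min m N : ℕ) : ℕ∞)

lemma orb_pseudo {V : Set (Ex × Ex)} (hVd : ∀ x, (x, x) ∈ V) {N : ℕ}
    (hN : ∀ a b : ℕ∞, a + b = N → (pB a b, pA a b) ∈ V) : PseudoOrbit1 G V (orb N) := by
  intro m y hy
  have hj : jj (orb N m) = ((min m N : ℕ) : ℕ∞) := rfl
  have hk : kk (orb N m) = ((N - min m N : ℕ) : ℕ∞) := rfl
  have hw : ww (orb N m) = ⊤ := rfl
  have hfin : jj (orb N m) + kk (orb N m) ≠ ⊤ := by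
    rw [hj, hk]
    exact_mod_cast ENat.natCast_ne_top (min m N + (N - min m N))
  rcases hy with ((h | h) | h) | h
  · obtain ⟨-, h1, h2, h3⟩ := h
    simp only at h1 h2 h3
    have hmN : m < N := by
      by_contra hcon
      have e : N - min m N = 0 := by omega
      rw [hk, e] at h2
      have : kk y + 1 ≠ 0 := by simp
      exact this (by rw [← h2]; simp)
    have hmin : min m N = m := by omega
    have hmin' : min (m + 1) N = m + 1 := by omega
    have e1 : jj y = ((m + 1 : ℕ) : ℕ∞) := by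
      rw [h1, hj, hmin]; push_cast; rfl
    have e2 : kk y = ((N - (m + 1) : ℕ) : ℕ∞) := by
      rw [hk, hmin] at h2
      have e3 : ((N - m : ℕ) : ℕ∞) = ((N - (m + 1) : ℕ) : ℕ∞) + 1 := by
        have : N - m = (N - (m + 1)) + 1 := by omega
        rw [this]; push_cast; rfl
      rw [e3] at h2
      exact (add_one_inj' h2).symm
    have hy : y = pB ((m + 1 : ℕ) : ℕ∞) ((N - (m + 1) : ℕ) : ℕ∞) := by
      apply ext' e1 e2
      rw [h3, e1, e2]; rfl
    have ho : orb N (m + 1) = pA ((m + 1 : ℕ) : ℕ∞) ((N - (m + 1) : ℕ) : ℕ∞) := by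
      rw [orb, hmin']
    rw [hy, ho]
    apply hN
    have : (m + 1) + (N - (m + 1)) = N := by omega
    exact_mod_cast congrArg (fun n : ℕ => (n : ℕ∞)) this
  · obtain ⟨-, -, -, h3⟩ := h
    simp only [Prod.snd_swap] at h3
    exact absurd (h3.symm.trans hw) hfin
  · obtain ⟨h1, h2, -⟩ := h
    simp only at h1 h2
    have hmN : N ≤ m := by
      by_contra hcon
      rw [hk] at h2
      have : N - min m N = 0 := by exact_mod_cast h2
      omega
    have e : orb N (m + 1) = orb N m := by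
      have e1 : min (m + 1) N = N := by omega
      have e2 : min m N = N := by omega
      rw [orb, orb, e1, e2]
    rw [e, ← h1]
    exact hVd _
  · obtain ⟨-, -, h3⟩ := h
    exact absurd (h3.symm.trans hw) hfin

lemma not_shadowed {N : ℕ} (hN : 1 ≤ N) (z : Ex) : ¬ Shadows2 G U z (orb N) := by
  rintro ⟨y, -, hy, hU⟩
  have h0 : jj (y 0) = 0 := by
    apply (hU 0).1.2
    show ((min 0 N : ℕ) : ℕ∞) = 0
    simp
  have h1 : jj (y 1) ≠ 0 := by
    intro h
    have h2 := (hU 1).1.1 h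
    have h3 : ((min 1 N : ℕ) : ℕ∞) = 0 := h2
    have h4 : min 1 N = 0 := by exact_mod_cast h3
    omega
  have hlate : ∀ m, N ≤ m → kk (y m) = 0 := by
    intro m hm
    apply (hU m).2.2
    show ((N - min m N : ℕ) : ℕ∞) = 0
    have : N - min m N = 0 := by omega
    rw [this]; simp
  -- the first step is of type `R`
  have hR : (y 0, y 1) ∈ R := by
    rcases hy 0 with ((h | h) | h) | h
    · exact h
    · exfalso
      obtain ⟨-, h2, -, -⟩ := h
      simp only [Prod.fst_swap, Prod.snd_swap] at h2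
      rw [h0] at h2
      have : jj (y 1) + 1 ≠ 0 := by simp
      exact this h2.symm
    · exfalso
      obtain ⟨h2, -, -⟩ := h
      simp only at h2
      exact h1 (by rw [← h2]; exact h0)
    · exfalso
      obtain ⟨h2, -, -⟩ := h
      simp only at h2
      exact h1 (by rw [← h2]; exact h0)
  obtain ⟨r1, r2, r3, r4⟩ := hR
  simp only at r1 r2 r3 r4
  by_cases hk : kk (y 1) = ⊤
  · -- the second coordinate stays infinite
    have htop : ∀ m, kk (y m) = ⊤ := by
      intro m
      induction m with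
      | zero => rw [r3, hk]; rfl
      | succ m ih =>
        rcases hy m with ((h | h) | h) | h
        · obtain ⟨-, -, h3, -⟩ := h
          simp only at h3
          rw [ih] at h3
          by_contra hne
          have : kk (y (m + 1)) + 1 ≠ ⊤ := by simpa using hne
          exact this h3.symm
        · obtain ⟨-, -, h3, -⟩ := h
          simp only [Prod.fst_swap, Prod.snd_swap] at h3
          rw [h3, ih]; rfl
        · obtain ⟨h3, -, -⟩ := h
          simp only at h3
          rw [← h3, ih]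
        · obtain ⟨h3, -, -⟩ := h
          simp only at h3
          rw [← h3, ih]
    have h2 := hlate N le_rfl
    rw [htop] at h2
    exact absurd h2 (by simp)
  · -- the trajectory is 2-periodic
    have hj1 : jj (y 1) = 1 := by rw [r2, h0, zero_add]
    have hw1 : ww (y 1) ≠ ⊤ := by
      rw [r4, hj1]
      intro h
      have h2 : (1 : ℕ∞) + kk (y 1) ≠ ⊤ := by simpa using hk
      exact h2 h
    have hw0 : ww (y 0) ≠ jj (y 0) + kk (y 0) := by
      rw [r1, h0, zero_add, r3]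
      intro h
      have : kk (y 1) + 1 ≠ ⊤ := by simpa using hk
      exact this h.symm
    have hk0 : kk (y 0) ≠ 0 := by rw [r3]; simp
    have hstep0 : ∀ m, y m = y 0 → y (m + 1) = y 1 := by
      intro m hm
      rcases hy m with ((h | h) | h) | h
      · obtain ⟨-, s2, s3, s4⟩ := h
        simp only [hm] at s2 s3 s4
        have e1 : jj (y (m + 1)) = jj (y 1) := by rw [s2, r2]
        have e2 : kk (y (m + 1)) = kk (y 1) := by
          rw [r3] at s3
          exact (add_one_inj' s3).symm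
        exact ext' e1 e2 (by rw [s4, r4, e1, e2])
      · obtain ⟨-, -, -, s4⟩ := h
        simp only [Prod.snd_swap, hm] at s4
        exact absurd s4 hw0
      · obtain ⟨-, s2, -⟩ := h
        simp only [hm] at s2
        exact absurd s2 hk0
      · obtain ⟨-, -, s3⟩ := h
        simp only [hm] at s3
        exact absurd s3 hw0
    have hstep1 : ∀ m, y m = y 1 → y (m + 1) = y 0 := by
      intro m hm
      rcases hy m with ((h | h) | h) | h
      · obtain ⟨s1, -, -, -⟩ := h
        simp only [hm] at s1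
        exact absurd s1 hw1
      · obtain ⟨s1, s2, s3, -⟩ := h
        simp only [Prod.fst_swap, Prod.snd_swap, hm] at s1 s2 s3
        have e1 : jj (y (m + 1)) = jj (y 0) := by
          rw [r2] at s2
          exact (add_one_inj' s2).symm
        exact ext' e1 (by rw [s3, r3]) (by rw [s1, r1])
      · obtain ⟨-, -, s3⟩ := h
        simp only [hm] at s3
        exact absurd s3 hw1
      · obtain ⟨-, s2, -⟩ := h
        simp only [hm] at s2
        exact absurd s2 h1
    have hper : ∀ m, y (2 * m) = y 0 := by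
      intro m
      induction m with
      | zero => rfl
      | succ m ih =>
        have e : 2 * (m + 1) = 2 * m + 1 + 1 := by ring
        rw [e]
        exact hstep1 _ (hstep0 _ ih)
    have h2 := hlate (2 * N) (by omega)
    rw [hper] at h2
    exact hk0 h2

theorem result : ∃ (X : Type) (_ : TopologicalSpace X) (G : Set (X × X)) (n : ℕ),
    Nonempty X ∧ CompactSpace X ∧ T2Space X ∧ TotallyDisconnectedSpace X ∧ G.Nonempty ∧
      IsClosed G ∧ 1 ≤ n ∧ Set.diagonal X ⊆ IterRel G n ∧ ¬ Shadowing12 G := by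
  refine ⟨Ex, inferInstance, G, 2, ⟨pA 0 0⟩, inferInstance, inferInstance, inferInstance,
    ⟨(pA 0 0, pA 0 0), Or.inl (Or.inr ⟨rfl, rfl, rfl⟩)⟩, isClosed_G, by norm_num, ?_, ?_⟩
  · rintro ⟨x, y⟩ hxy
    rw [Set.mem_diagonal_iff] at hxy
    simp only at hxy
    subst hxy
    obtain ⟨z, h1, h2⟩ := diag_sub x
    exact ⟨z, h1, x, h2, rfl⟩
  · intro hsh
    obtain ⟨V, hV, h⟩ := hsh U U_mem
    obtain ⟨N, hN1, hN⟩ := exists_N hV
    obtain ⟨z, hz⟩ := h (orb N) (orb_pseudo
      (fun x => subset_of_mem_nhdsSet hV (Set.mem_diagonal x)) hN)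
    exact not_shadowed hN1 z hz

end Pool.Agent.Results.MP_cda11a_an.NoShadowing12
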